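import Mathlib

set_option autoImplicit false

namespace Pool.Agent.Results.MP_8cb698_co.MiddleGap

open Equiv Finset

/-- A family `A` of permutations of `Fin n` (`a p` is the entry at position `p`, `a.symm i` is the
position of the entry `i`) is a strong up-set if it is closed under exchanging the entries `i < j`
of an inversion, i.e. of a pair with `pos(a, i) > pos(a, j)`. -/
def IsStrongUpSet {n : ℕ} (A : Finset (Perm (Fin n))) : Prop :=
  ∀ a ∈ A, ∀ i j : Fin n, i < j → a.symm j < a.symm i → swap i j * a ∈ A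

/-- `m(a)`: the number of `k` with `1 ≤ k ≤ n/2` and `n/2 < a_k ≤ n` (positions and entries are
`0`-based here, so `k` and `a_k` are `(k : ℕ) + 1` and `(a k : ℕ) + 1`). -/
def m {n : ℕ} (a : Perm (Fin n)) : ℕ :=
  (univ.filter (fun k : Fin n => 2 * ((k : ℕ) + 1) ≤ n ∧ n < 2 * ((a k : ℕ) + 1))).card

/-- The middle-gap measure `μ_q`. -/
noncomputable def mu {n : ℕ} (q : ℝ) (A : Finset (Perm (Fin n))) : ℝ :=
  (∑ a ∈ A, q ^ m a) / ∑ b : Perm (Fin n), q ^ m b

/-- Positive association for the strong order. -/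
def PositivelyAssociated {n : ℕ} (μ : Finset (Perm (Fin n)) → ℝ) : Prop :=
  ∀ A B : Finset (Perm (Fin n)), IsStrongUpSet A → IsStrongUpSet B → μ A * μ B ≤ μ (A ∩ B)

/-! ### The groups of permutations supported in a set -/

variable {n : ℕ}

/-- Permutations fixing everything outside `T`. -/
def GT (T : Finset (Fin n)) : Finset (Perm (Fin n)) :=
  univ.filter (fun u => ∀ v, v ∉ T → u v = v)

theorem mem_GT {T : Finset (Fin n)} {u : Perm (Fin n)} :
    u ∈ GT T ↔ ∀ v, v ∉ T → u v = v := by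
  simp [GT]

theorem one_mem_GT (T : Finset (Fin n)) : (1 : Perm (Fin n)) ∈ GT T := by
  simp [mem_GT]

theorem mul_mem_GT {T : Finset (Fin n)} {u w : Perm (Fin n)} (hu : u ∈ GT T) (hw : w ∈ GT T) :
    u * w ∈ GT T := by
  rw [mem_GT] at *
  intro v hv
  rw [Perm.mul_apply, hw v hv, hu v hv]

theorem inv_mem_GT {T : Finset (Fin n)} {u : Perm (Fin n)} (hu : u ∈ GT T) :
    u⁻¹ ∈ GT T := by
  rw [mem_GT] at *
  intro v hv
  rw [Perm.inv_eq_iff_eq, hu v hv]

theorem apply_mem_of_GT {T : Finset (Fin n)} {u : Perm (Fin n)} (hu : u ∈ GT T) {v : Fin n}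
    (hv : v ∈ T) : u v ∈ T := by
  by_contra h
  have h1 : u⁻¹ (u v) = u v := (mem_GT.1 (inv_mem_GT hu)) _ h
  have h2 : u⁻¹ (u v) = v := by simp
  rw [h2] at h1
  rw [← h1] at h
  exact h hv

theorem swap_mem_GT {T : Finset (Fin n)} {i j : Fin n} (hi : i ∈ T) (hj : j ∈ T) :
    swap i j ∈ GT T := by
  rw [mem_GT]
  intro v hv
  exact swap_apply_of_ne_of_ne (fun h => hv (h ▸ hi)) (fun h => hv (h ▸ hj))

theorem sum_GT_mul_right {T : Finset (Fin n)} {w : Perm (Fin n)} (hw : w ∈ GT T)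
    (h : Perm (Fin n) → ℝ) : ∑ u ∈ GT T, h (u * w) = ∑ u ∈ GT T, h u := by
  refine Finset.sum_nbij' (fun u => u * w) (fun u => u * w⁻¹) ?_ ?_ ?_ ?_ ?_
  · intro u hu; exact mul_mem_GT hu hw
  · intro u hu; exact mul_mem_GT hu (inv_mem_GT hw)
  · intro u _; simp
  · intro u _; simp
  · intro u _; rfl

theorem sum_GT_inv {T : Finset (Fin n)} (h : Perm (Fin n) → ℝ) :
    ∑ u ∈ GT T, h u⁻¹ = ∑ u ∈ GT T, h u := by
  refine Finset.sum_nbij' (fun u => u⁻¹) (fun u => u⁻¹) ?_ ?_ ?_ ?_ ?_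
  · intro u hu; exact inv_mem_GT hu
  · intro u hu; exact inv_mem_GT hu
  · intro u _; simp
  · intro u _; simp
  · intro u _; rfl

theorem card_GT_pos (T : Finset (Fin n)) : (0 : ℝ) < ((GT T).card : ℝ) := by
  have : 0 < (GT T).card := Finset.card_pos.2 ⟨1, one_mem_GT T⟩
  exact_mod_cast this

theorem sum_GT_insert {T : Finset (Fin n)} {j : Fin n} (hj : j ∉ T) (h : Perm (Fin n) → ℝ) :
    ∑ u ∈ GT (insert j T), h u = ∑ i ∈ insert j T, ∑ u ∈ GT T, h (u * swap j i) := by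
  rw [← Finset.sum_product']
  refine Finset.sum_nbij' (fun u => (u⁻¹ j, u * swap j (u⁻¹ j)))
    (fun p => p.2 * swap j p.1) ?_ ?_ ?_ ?_ ?_
  · intro u hu
    simp only [Finset.mem_product]
    have hj' : j ∈ insert j T := Finset.mem_insert_self _ _
    refine ⟨apply_mem_of_GT (inv_mem_GT hu) hj', ?_⟩
    rw [mem_GT]
    intro v hv
    by_cases hvj : v = j
    · subst hvj
      simp
    · have hv' : v ∉ insert j T := by simp [hvj, hv]
      have hne : v ≠ u⁻¹ j := by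
        intro hcon
        exact hv' (hcon ▸ apply_mem_of_GT (inv_mem_GT hu) hj')
      rw [Perm.mul_apply, swap_apply_of_ne_of_ne hvj hne]
      exact mem_GT.1 hu v hv'
  · rintro ⟨i, u⟩ hp
    simp only [Finset.mem_product] at hp
    have hu : u ∈ GT (insert j T) := by
      rw [mem_GT]
      intro v hv
      exact mem_GT.1 hp.2 v (fun hh => hv (Finset.mem_insert_of_mem hh))
    exact mul_mem_GT hu (swap_mem_GT (Finset.mem_insert_self _ _) hp.1)
  · intro u hu
    simp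
  · rintro ⟨i, u⟩ hp
    simp only [Finset.mem_product] at hp
    have huj : u j = j := mem_GT.1 hp.2 j hj
    have huj' : u⁻¹ j = j := by rw [Perm.inv_eq_iff_eq, huj]
    have h1 : (u * swap j i)⁻¹ j = i := by
      rw [mul_inv_rev, swap_inv, Perm.mul_apply, huj', swap_apply_left]
    simp only [h1]
    simp [mul_assoc]
  · intro u hu
    simp

/-! ### Positive association on a coset of `GT T` -/

/-- Monotone with respect to removing inversions between entries in `T`. -/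
def MonoOn (T : Finset (Fin n)) (g : Perm (Fin n) → ℝ) : Prop :=
  ∀ (a : Perm (Fin n)) (i j : Fin n), i ∈ T → j ∈ T → i < j → a⁻¹ j < a⁻¹ i →
    g a ≤ g (swap i j * a)

theorem MonoOn.mono {T T' : Finset (Fin n)} (hT : T' ⊆ T) {g : Perm (Fin n) → ℝ}
    (hg : MonoOn T g) : MonoOn T' g :=
  fun a i j hi hj => hg a i j (hT hi) (hT hj)

theorem mul_swap_eq (a : Perm (Fin n)) (p p' : Fin n) :
    a * swap p p' = swap (a p) (a p') * a := by
  rw [Equiv.swap_mul_eq_mul_swap]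
  simp

theorem coset_step {T : Finset (Fin n)} {j : Fin n} (hj : ∀ v ∈ T, v < j)
    {g : Perm (Fin n) → ℝ} (hg : MonoOn (insert j T) g) (x : Perm (Fin n)) {i i' : Fin n}
    (hi : i ∈ insert j T) (hi' : i' ∈ insert j T) (hlt : x⁻¹ i < x⁻¹ i') :
    ∑ u ∈ GT T, g (u * swap j i * x) ≤ ∑ u ∈ GT T, g (u * swap j i' * x) := by
  have hjT : j ∉ T := fun h => lt_irrefl _ (hj j h)
  have hne : i ≠ i' := fun h => by rw [h] at hlt; exact lt_irrefl _ hlt
  -- `w` relates the two base points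
  set w : Perm (Fin n) := swap j i * swap i i' * swap j i' with hw
  have hwmem : w ∈ GT T := by
    rw [mem_GT]
    intro v hv
    by_cases hvj : v = j
    · subst hvj
      simp [hw, Perm.mul_apply]
    · have hv' : v ∉ insert j T := by simp [hvj, hv]
      have h1 : v ≠ i := fun h => hv' (h ▸ hi)
      have h2 : v ≠ i' := fun h => hv' (h ▸ hi')
      rw [hw, Perm.mul_apply, Perm.mul_apply, swap_apply_of_ne_of_ne hvj h2,
        swap_apply_of_ne_of_ne h1 h2, swap_apply_of_ne_of_ne hvj h1]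
  have key : ∀ u ∈ GT T, g (u * swap j i * x) ≤ g (u * w * (swap j i' * x)) := by
    intro u hu
    have huj : u j = j := mem_GT.1 hu j hjT
    -- the entry at the position of `i'`
    have hy : swap j i i' ∈ T := by
      by_cases h : i' = j
      · rw [h, swap_apply_left]
        rcases Finset.mem_insert.1 hi with h' | h'
        · exact absurd (h'.trans h.symm) hne
        · exact h'
      · rw [swap_apply_of_ne_of_ne h hne.symm]
        rcases Finset.mem_insert.1 hi' with h' | h'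
        · exact absurd h' h
        · exact h'
    have hy2 : u (swap j i i') ∈ T := apply_mem_of_GT hu hy
    have hlt2 : u (swap j i i') < j := hj _ hy2
    have hzj : (u * swap j i * x)⁻¹ j = x⁻¹ i := by
      rw [Perm.inv_eq_iff_eq]
      simp [Perm.mul_apply, huj]
    have hzy : (u * swap j i * x)⁻¹ (u (swap j i i')) = x⁻¹ i' := by
      rw [Perm.inv_eq_iff_eq]
      simp [Perm.mul_apply]
    have h := hg (u * swap j i * x) (u (swap j i i')) j (Finset.mem_insert_of_mem hy2)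
      (Finset.mem_insert_self _ _) hlt2 (by rw [hzj, hzy]; exact hlt)
    refine h.trans (le_of_eq ?_)
    congr 1
    rw [hw]
    have e1 : swap (u (swap j i i')) j = u * swap j i * swap i' i * (swap j i)⁻¹ * u⁻¹ := by
      have := mul_swap_eq (u * swap j i) i' i
      rw [Perm.mul_apply, Perm.mul_apply, swap_apply_right, huj] at this
      rw [this]
      simp [mul_assoc]
    rw [e1]
    simp only [mul_assoc, inv_mul_cancel_left, swap_inv, swap_mul_self_mul]
    rw [swap_comm i' i]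
  calc ∑ u ∈ GT T, g (u * swap j i * x) ≤ ∑ u ∈ GT T, g (u * w * (swap j i' * x)) :=
        Finset.sum_le_sum key
    _ = ∑ u ∈ GT T, g (u * (swap j i' * x)) :=
        sum_GT_mul_right hwmem (fun u => g (u * (swap j i' * x)))
    _ = _ := by simp only [mul_assoc]

/-- Positive association of the uniform measure on a coset of `GT T`. -/
theorem coset_assoc (T : Finset (Fin n)) : ∀ (x : Perm (Fin n)) (g₁ g₂ : Perm (Fin n) → ℝ),
    MonoOn T g₁ → MonoOn T g₂ →
    (∑ u ∈ GT T, g₁ (u * x)) * (∑ u ∈ GT T, g₂ (u * x)) ≤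
      ((GT T).card : ℝ) * ∑ u ∈ GT T, g₁ (u * x) * g₂ (u * x) := by
  induction T using Finset.induction_on_max with
  | empty =>
    intro x g₁ g₂ _ _
    have : GT (∅ : Finset (Fin n)) = {1} := by
      ext u
      rw [mem_GT, Finset.mem_singleton]
      constructor
      · intro h
        ext v
        rw [h v (by simp)]
        simp
      · rintro rfl
        simp
    simp [this]
  | insert j T hj ih =>
    intro x g₁ g₂ hg₁ hg₂
    have hjT : j ∉ T := fun h => lt_irrefl _ (hj j h)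
    have hcard : ((GT (insert j T)).card : ℝ) =
        ((insert j T).card : ℝ) * ((GT T).card : ℝ) := by
      have := sum_GT_insert hjT (fun _ => (1 : ℝ))
      simpa using this
    rw [sum_GT_insert hjT (fun u => g₁ (u * x)), sum_GT_insert hjT (fun u => g₂ (u * x)),
      sum_GT_insert hjT (fun u => g₁ (u * x) * g₂ (u * x)), hcard]
    have hmv : MonovaryOn (fun i => ∑ u ∈ GT T, g₁ (u * swap j i * x))
        (fun i => ∑ u ∈ GT T, g₂ (u * swap j i * x)) (insert j T : Finset (Fin n)) := by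
      intro i hi i' hi' hlt
      rcases lt_trichotomy (x⁻¹ i) (x⁻¹ i') with h | h | h
      · exact coset_step hj hg₁ x hi hi' h
      · have : i = i' := by simpa using h
        rw [this]
      · exact absurd (coset_step hj hg₂ x hi' hi h) (not_le.2 hlt)
    have hcheb := hmv.sum_mul_sum_le_card_mul_sum
    have hm₁ : MonoOn T g₁ := hg₁.mono (Finset.subset_insert _ _)
    have hm₂ : MonoOn T g₂ := hg₂.mono (Finset.subset_insert _ _)
    calc _ ≤ ((insert j T).card : ℝ) * ∑ i ∈ insert j T,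
          (∑ u ∈ GT T, g₁ (u * swap j i * x)) * ∑ u ∈ GT T, g₂ (u * swap j i * x) := hcheb
      _ ≤ ((insert j T).card : ℝ) * ∑ i ∈ insert j T,
          ((GT T).card : ℝ) * ∑ u ∈ GT T, g₁ (u * swap j i * x) * g₂ (u * swap j i * x) := by
          refine mul_le_mul_of_nonneg_left ?_ (Nat.cast_nonneg _)
          refine Finset.sum_le_sum fun i _ => ?_
          have := ih (swap j i * x) g₁ g₂ hm₁ hm₂
          simpa only [mul_assoc] using this
      _ = _ := by
          rw [← Finset.mul_sum, mul_assoc]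

/-! ### Two blocks of entries -/

/-- The sum of `g` over the coset of `y` under permutations of the entries preserving `T`. -/
noncomputable def V (T : Finset (Fin n)) (g : Perm (Fin n) → ℝ) (y : Perm (Fin n)) : ℝ :=
  ∑ u₂ ∈ GT Tᶜ, ∑ u₁ ∈ GT T, g (u₁ * u₂ * y)

theorem commute_GT {T : Finset (Fin n)} {u w : Perm (Fin n)} (hu : u ∈ GT Tᶜ) (hw : w ∈ GT T) :
    u * w = w * u := by
  ext v
  rw [Perm.mul_apply, Perm.mul_apply]
  by_cases hv : v ∈ T
  · rw [mem_GT.1 hu v (by simpa using hv), mem_GT.1 hu (w v) (by simpa using apply_mem_of_GT hw hv)]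
  · rw [mem_GT.1 hw v hv]
    have : u v ∈ Tᶜ := apply_mem_of_GT hu (by simpa using hv)
    rw [mem_GT.1 hw (u v) (by simpa using this)]

theorem V_mul_left_GT {T : Finset (Fin n)} (g : Perm (Fin n) → ℝ) (y : Perm (Fin n))
    {w : Perm (Fin n)} (hw : w ∈ GT T) : V T g (w * y) = V T g y := by
  unfold V
  refine Finset.sum_congr rfl fun u₂ hu₂ => ?_
  rw [← sum_GT_mul_right hw (fun u => g (u * u₂ * y))]
  refine Finset.sum_congr rfl fun u₁ _ => ?_
  congr 1
  rw [mul_assoc u₁ w u₂, ← commute_GT hu₂ hw]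
  simp only [mul_assoc]

theorem V_mul_left_GTc {T : Finset (Fin n)} (g : Perm (Fin n) → ℝ) (y : Perm (Fin n))
    {w : Perm (Fin n)} (hw : w ∈ GT Tᶜ) : V T g (w * y) = V T g y := by
  unfold V
  rw [← sum_GT_mul_right hw (fun u₂ => ∑ u₁ ∈ GT T, g (u₁ * u₂ * y))]
  refine Finset.sum_congr rfl fun u₂ _ => Finset.sum_congr rfl fun u₁ _ => ?_
  simp only [mul_assoc]

theorem decomp {T : Finset (Fin n)} {u : Perm (Fin n)} (hu : ∀ v, u v ∈ T ↔ v ∈ T) :
    ∃ u₁ ∈ GT T, ∃ u₂ ∈ GT Tᶜ, u = u₁ * u₂ := by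
  classical
  set u₁ : Perm (Fin n) := Perm.ofSubtype (u.subtypePerm hu) with hu₁
  have h1 : ∀ v, v ∈ T → u₁ v = u v := by
    intro v hv
    rw [hu₁, Perm.ofSubtype_apply_of_mem _ hv]
    rfl
  have h2 : ∀ v, v ∉ T → u₁ v = v := by
    intro v hv
    rw [hu₁, Perm.ofSubtype_apply_of_not_mem _ hv]
  refine ⟨u₁, mem_GT.2 h2, u₁⁻¹ * u, ?_, by simp⟩
  rw [mem_GT]
  intro v hv
  have hv' : v ∈ T := by simpa using hv
  rw [Perm.mul_apply, Perm.inv_eq_iff_eq, h1 v hv']

theorem V_mul_left {T : Finset (Fin n)} (g : Perm (Fin n) → ℝ) (y : Perm (Fin n))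
    {u : Perm (Fin n)} (hu : ∀ v, u v ∈ T ↔ v ∈ T) : V T g (u * y) = V T g y := by
  obtain ⟨u₁, h₁, u₂, h₂, rfl⟩ := decomp hu
  rw [mul_assoc, V_mul_left_GT g _ h₁, V_mul_left_GTc g _ h₂]

theorem V_assoc (T : Finset (Fin n)) (x : Perm (Fin n)) (g₁ g₂ : Perm (Fin n) → ℝ)
    (h₁ : MonoOn T g₁) (h₁' : MonoOn Tᶜ g₁) (h₂ : MonoOn T g₂) (h₂' : MonoOn Tᶜ g₂) :
    V T g₁ x * V T g₂ x ≤
      ((GT T).card : ℝ) * ((GT Tᶜ).card : ℝ) * V T (fun a => g₁ a * g₂ a) x := by
  have aux : ∀ g : Perm (Fin n) → ℝ, MonoOn Tᶜ g →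
      MonoOn Tᶜ (fun y => ∑ u₁ ∈ GT T, g (u₁ * y)) := by
    intro g hg a i j hi hj hij hinv
    refine Finset.sum_le_sum fun u₁ hu₁ => ?_
    have ei : u₁ i = i := mem_GT.1 hu₁ i (by simpa using hi)
    have ej : u₁ j = j := mem_GT.1 hu₁ j (by simpa using hj)
    have ei' : u₁⁻¹ i = i := by rw [Perm.inv_eq_iff_eq, ei]
    have ej' : u₁⁻¹ j = j := by rw [Perm.inv_eq_iff_eq, ej]
    have h := hg (u₁ * a) i j hi hj hij (by
      rw [mul_inv_rev, Perm.mul_apply, Perm.mul_apply, ei', ej']; exact hinv)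
    refine h.trans (le_of_eq ?_)
    congr 1
    have := mul_swap_eq u₁ i j
    rw [ei, ej] at this
    rw [← mul_assoc, ← mul_assoc, this]
  have hA : ∀ u₂ : Perm (Fin n), (∑ u₁ ∈ GT T, g₁ (u₁ * (u₂ * x))) * (∑ u₁ ∈ GT T, g₂ (u₁ * (u₂ * x)))
      ≤ ((GT T).card : ℝ) * ∑ u₁ ∈ GT T, g₁ (u₁ * (u₂ * x)) * g₂ (u₁ * (u₂ * x)) :=
    fun u₂ => coset_assoc T (u₂ * x) g₁ g₂ h₁ h₂
  have hB := coset_assoc Tᶜ x _ _ (aux g₁ h₁') (aux g₂ h₂')
  unfold V
  simp only [mul_assoc] at hA hB ⊢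
  calc _ ≤ ((GT Tᶜ).card : ℝ) * ∑ u₂ ∈ GT Tᶜ, (∑ u₁ ∈ GT T, g₁ (u₁ * (u₂ * x))) *
        (∑ u₁ ∈ GT T, g₂ (u₁ * (u₂ * x))) := hB
    _ ≤ ((GT Tᶜ).card : ℝ) * ∑ u₂ ∈ GT Tᶜ, ((GT T).card : ℝ) *
        ∑ u₁ ∈ GT T, g₁ (u₁ * (u₂ * x)) * g₂ (u₁ * (u₂ * x)) := by
        refine mul_le_mul_of_nonneg_left ?_ (Nat.cast_nonneg _)
        exact Finset.sum_le_sum fun u₂ _ => hA u₂
    _ = _ := by
        rw [← Finset.mul_sum]
        ring

/-- `V T g` is monotone with respect to removing any inversion, when `T` is a lower set. -/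
theorem V_mono {T : Finset (Fin n)} (hT : ∀ v ∈ T, ∀ v' ≤ v, v' ∈ T) {g : Perm (Fin n) → ℝ}
    (hg : MonoOn univ g) (a : Perm (Fin n)) (p p' : Fin n) (hp : p < p') (hinv : a p' < a p) :
    V T g a ≤ V T g (a * swap p p') := by
  have e : a * swap p p' = swap (a p) (a p') * a := mul_swap_eq a p p'
  by_cases h1 : a p ∈ T
  · have h2 : a p' ∈ T := hT _ h1 _ hinv.le
    rw [e, V_mul_left_GT g _ (swap_mem_GT h1 h2)]
  · by_cases h2 : a p' ∈ T
    · unfold V
      refine Finset.sum_le_sum fun u₂ hu₂ => Finset.sum_le_sum fun u₁ hu₁ => ?_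
      set z := u₁ * u₂ * a with hz
      have hzp : z p ∉ T := by
        have : u₂ (a p) ∈ Tᶜ := apply_mem_of_GT hu₂ (by simpa using h1)
        have h3 : u₂ (a p) ∉ T := by simpa using this
        have h4 : z p = u₂ (a p) := by
          rw [hz, Perm.mul_apply, Perm.mul_apply, mem_GT.1 hu₁ _ h3]
        rw [h4]; exact h3
      have hzp' : z p' ∈ T := by
        have h3 : u₂ (a p') = a p' := mem_GT.1 hu₂ _ (by simpa using h2)
        have h4 : z p' = u₁ (a p') := by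
          rw [hz, Perm.mul_apply, Perm.mul_apply, h3]
        rw [h4]; exact apply_mem_of_GT hu₁ h2
      have hlt : z p' < z p := by
        by_contra hcon
        exact hzp (hT _ hzp' _ (not_lt.1 hcon))
      have h := hg z (z p') (z p) (mem_univ _) (mem_univ _) hlt (by simpa using hp)
      refine h.trans (le_of_eq ?_)
      congr 1
      rw [← mul_swap_eq z p' p, swap_comm p' p, hz, mul_assoc (u₁ * u₂)]
    · rw [e, V_mul_left_GTc g _ (swap_mem_GT (by simpa using h1) (by simpa using h2))]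

/-! ### Averages over a double coset -/

/-- The sum of `g` over the double coset of `a`: permutations of the entries preserving `T` and
permutations of the positions preserving `Q`. -/
noncomputable def D (Q T : Finset (Fin n)) (g : Perm (Fin n) → ℝ) (a : Perm (Fin n)) : ℝ :=
  V Q (fun b => V T g b⁻¹) a⁻¹

theorem D_def (Q T : Finset (Fin n)) (g : Perm (Fin n) → ℝ) (a : Perm (Fin n)) :
    D Q T g a = ∑ v₂ ∈ GT Qᶜ, ∑ v₁ ∈ GT Q, V T g (v₁ * v₂ * a⁻¹)⁻¹ := rfl

/-- The number of terms of the sum defining `D`. -/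
noncomputable def N (Q T : Finset (Fin n)) : ℝ :=
  (((GT Q).card : ℝ) * ((GT Qᶜ).card : ℝ)) * (((GT T).card : ℝ) * ((GT Tᶜ).card : ℝ))

theorem N_pos (Q T : Finset (Fin n)) : 0 < N Q T :=
  mul_pos (mul_pos (card_GT_pos _) (card_GT_pos _)) (mul_pos (card_GT_pos _) (card_GT_pos _))

theorem D_assoc {Q T : Finset (Fin n)} (hT : ∀ v ∈ T, ∀ v' ≤ v, v' ∈ T)
    {g₁ g₂ : Perm (Fin n) → ℝ} (h₁ : MonoOn univ g₁) (h₂ : MonoOn univ g₂) (a : Perm (Fin n)) :
    D Q T g₁ a * D Q T g₂ a ≤ N Q T * D Q T (fun a => g₁ a * g₂ a) a := by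
  have aux : ∀ g : Perm (Fin n) → ℝ, MonoOn univ g → MonoOn univ (fun b => V T g b⁻¹) := by
    intro g hg b i j _ _ hij hinv
    have := V_mono hT hg b⁻¹ i j hij hinv
    simpa only [mul_inv_rev, swap_inv] using this
  have aux' : ∀ (S : Finset (Fin n)) (g : Perm (Fin n) → ℝ), MonoOn univ g →
      MonoOn S (fun b => V T g b⁻¹) := fun S g hg => (aux g hg).mono (subset_univ _)
  have hB := V_assoc Q a⁻¹ _ _ (aux' Q g₁ h₁) (aux' Qᶜ g₁ h₁) (aux' Q g₂ h₂) (aux' Qᶜ g₂ h₂)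
  have hC : V Q (fun b => V T g₁ b⁻¹ * V T g₂ b⁻¹) a⁻¹ ≤
      (((GT T).card : ℝ) * ((GT Tᶜ).card : ℝ)) * D Q T (fun a => g₁ a * g₂ a) a := by
    rw [D_def, Finset.mul_sum]
    refine Finset.sum_le_sum fun v₂ _ => ?_
    rw [Finset.mul_sum]
    refine Finset.sum_le_sum fun v₁ _ => ?_
    exact V_assoc T _ g₁ g₂ (h₁.mono (subset_univ _)) (h₁.mono (subset_univ _))
      (h₂.mono (subset_univ _)) (h₂.mono (subset_univ _))
  have hpos : (0 : ℝ) ≤ ((GT Q).card : ℝ) * ((GT Qᶜ).card : ℝ) :=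
    mul_nonneg (Nat.cast_nonneg _) (Nat.cast_nonneg _)
  calc D Q T g₁ a * D Q T g₂ a
      ≤ ((GT Q).card : ℝ) * ((GT Qᶜ).card : ℝ) *
        V Q (fun b => V T g₁ b⁻¹ * V T g₂ b⁻¹) a⁻¹ := hB
    _ ≤ ((GT Q).card : ℝ) * ((GT Qᶜ).card : ℝ) *
        ((((GT T).card : ℝ) * ((GT Tᶜ).card : ℝ)) * D Q T (fun a => g₁ a * g₂ a) a) :=
        mul_le_mul_of_nonneg_left hC hpos
    _ = _ := by unfold N; ring

theorem D_mul_left {Q T : Finset (Fin n)} (g : Perm (Fin n) → ℝ) (a u : Perm (Fin n))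
    (hu : ∀ v, u v ∈ T ↔ v ∈ T) : D Q T g (u * a) = D Q T g a := by
  rw [D_def, D_def]
  refine Finset.sum_congr rfl fun v₂ _ => Finset.sum_congr rfl fun v₁ _ => ?_
  have e : (v₁ * v₂ * (u * a)⁻¹)⁻¹ = u * (v₁ * v₂ * a⁻¹)⁻¹ := by
    simp [mul_assoc]
  rw [e]
  exact V_mul_left g _ hu

theorem D_mul_right {Q T : Finset (Fin n)} (g : Perm (Fin n) → ℝ) (a v : Perm (Fin n))
    (hv : ∀ x, v x ∈ Q ↔ x ∈ Q) : D Q T g (a * v⁻¹) = D Q T g a := by
  unfold D
  have e : (a * v⁻¹)⁻¹ = v * a⁻¹ := by simp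
  rw [e]
  exact V_mul_left _ _ hv

/-- The number of entries outside `T` in positions in `Q`. -/
def mm (Q T : Finset (Fin n)) (a : Perm (Fin n)) : ℕ :=
  (univ.filter (fun k : Fin n => k ∈ Q ∧ a k ∉ T)).card

theorem exists_perm_of_card_fibers {α C : Type*} [Fintype α] [DecidableEq C] (f g : α → C)
    (h : ∀ c, Fintype.card {x // f x = c} = Fintype.card {x // g x = c}) :
    ∃ v : Perm α, ∀ x, g (v x) = f x := by
  refine ⟨(Equiv.sigmaFiberEquiv f).symm.trans ((Equiv.sigmaCongrRight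
    (fun c => Fintype.equivOfCardEq (h c))).trans (Equiv.sigmaFiberEquiv g)), fun x => ?_⟩
  simp only [Equiv.trans_apply]
  have := (Fintype.equivOfCardEq (h (f x)) ⟨x, rfl⟩).2
  exact this

/-- The four types of positions. -/
theorem card_types (Q T : Finset (Fin n)) (a : Perm (Fin n)) :
    (univ.filter (fun k : Fin n => k ∈ Q ∧ a k ∈ T)).card + mm Q T a = Q.card ∧
    (univ.filter (fun k : Fin n => k ∈ Q ∧ a k ∈ T)).card +
      (univ.filter (fun k : Fin n => k ∉ Q ∧ a k ∈ T)).card = T.card ∧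
    (univ.filter (fun k : Fin n => k ∉ Q ∧ a k ∈ T)).card +
      (univ.filter (fun k : Fin n => k ∉ Q ∧ a k ∉ T)).card = Qᶜ.card := by
  refine ⟨?_, ?_, ?_⟩
  · unfold mm
    rw [← Finset.card_union_of_disjoint]
    · congr 1
      ext k
      simp only [mem_union, mem_filter, mem_univ, true_and]
      tauto
    · rw [Finset.disjoint_left]
      intro k
      simp only [mem_filter, mem_univ, true_and]
      tauto
  · rw [← Finset.card_union_of_disjoint]
    · have : T.card = (univ.filter (fun k : Fin n => a k ∈ T)).card := by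
        rw [← Finset.card_map a.symm.toEmbedding]
        congr 1
        ext k
        simp only [mem_map, mem_filter, mem_univ, true_and, Equiv.coe_toEmbedding]
        constructor
        · rintro ⟨v, hv, rfl⟩
          simpa using hv
        · intro h
          exact ⟨a k, h, by simp⟩
      rw [this]
      congr 1
      ext k
      simp only [mem_union, mem_filter, mem_univ, true_and]
      tauto
    · rw [Finset.disjoint_left]
      intro k
      simp only [mem_filter, mem_univ, true_and]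
      tauto
  · rw [← Finset.card_union_of_disjoint]
    · congr 1
      ext k
      simp only [mem_union, mem_filter, mem_univ, true_and, mem_compl]
      tauto
    · rw [Finset.disjoint_left]
      intro k
      simp only [mem_filter, mem_univ, true_and]
      tauto

/-- Permutations with the same value of `mm` lie in the same double coset. -/
theorem D_eq_of_mm_eq {Q T : Finset (Fin n)} (g : Perm (Fin n) → ℝ) {a b : Perm (Fin n)}
    (h : mm Q T a = mm Q T b) : D Q T g a = D Q T g b := by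
  classical
  obtain ⟨v, hv⟩ := exists_perm_of_card_fibers
    (fun k : Fin n => (decide (k ∈ Q), decide (a k ∈ T)))
    (fun k : Fin n => (decide (k ∈ Q), decide (b k ∈ T))) (by
      obtain ⟨a1, a2, a3⟩ := card_types Q T a
      obtain ⟨b1, b2, b3⟩ := card_types Q T b
      rintro ⟨c, c'⟩
      rw [Fintype.card_subtype, Fintype.card_subtype]
      cases c <;> cases c' <;>
        simp only [Prod.mk.injEq, decide_eq_true_eq, decide_eq_false_iff_not]
      · omega
      · omega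
      · have ha : (univ.filter (fun k : Fin n => k ∈ Q ∧ a k ∉ T)).card = mm Q T a := rfl
        have hb : (univ.filter (fun k : Fin n => k ∈ Q ∧ b k ∉ T)).card = mm Q T b := rfl
        omega
      · omega)
  have hQ : ∀ k, v k ∈ Q ↔ k ∈ Q := by
    intro k
    have := congrArg Prod.fst (hv k)
    simpa using this
  have hTT : ∀ k, b (v k) ∈ T ↔ a k ∈ T := by
    intro k
    have := congrArg Prod.snd (hv k)
    simpa using this
  have hu : ∀ x, (b * v * a⁻¹) x ∈ T ↔ x ∈ T := by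
    intro x
    have := hTT (a⁻¹ x)
    simpa [Perm.mul_apply] using this
  have e : b = (b * v * a⁻¹) * a * v⁻¹ := by simp [mul_assoc]
  rw [e, D_mul_right g _ v hQ, D_mul_left g a _ hu]

/-- Swapping a crossing pair back increases `D` and decreases `mm` by one. -/
theorem D_step {Q T : Finset (Fin n)} (hQ : ∀ v ∈ Q, ∀ v' ≤ v, v' ∈ Q)
    (hT : ∀ v ∈ T, ∀ v' ≤ v, v' ∈ T) {g : Perm (Fin n) → ℝ}
    (hg : MonoOn univ g) (b : Perm (Fin n)) {p p' : Fin n} (hp : p ∈ Q) (hp' : p' ∉ Q)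
    (hbp : b p ∉ T) (hbp' : b p' ∈ T) :
    D Q T g b ≤ D Q T g (b * swap p p') ∧ mm Q T (b * swap p p') + 1 = mm Q T b := by
  constructor
  · unfold D V
    refine Finset.sum_le_sum fun v₂ hv₂ => Finset.sum_le_sum fun v₁ hv₁ => ?_
    refine Finset.sum_le_sum fun u₂ hu₂ => Finset.sum_le_sum fun u₁ hu₁ => ?_
    set z := u₁ * u₂ * (v₁ * v₂ * b⁻¹)⁻¹ with hz
    have h1 : v₁ (v₂ p) ∈ Q := by
      rw [mem_GT.1 hv₂ p (by simpa using hp)]
      exact apply_mem_of_GT hv₁ hp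
    have h2 : v₁ (v₂ p') ∉ Q := by
      have h3 : v₂ p' ∈ Qᶜ := apply_mem_of_GT hv₂ (by simpa using hp')
      have h4 : v₂ p' ∉ Q := by simpa using h3
      rw [mem_GT.1 hv₁ _ h4]; exact h4
    have hlt : v₁ (v₂ p) < v₁ (v₂ p') := by
      by_contra hcon
      exact h2 (hQ _ h1 _ (not_lt.1 hcon))
    have hz1 : z (v₁ (v₂ p)) = u₁ (u₂ (b p)) := by
      simp [hz, Perm.mul_apply]
    have hz2 : z (v₁ (v₂ p')) = u₁ (u₂ (b p')) := by
      simp [hz, Perm.mul_apply]
    have h5 : z (v₁ (v₂ p)) ∉ T := by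
      rw [hz1]
      have h3 : u₂ (b p) ∈ Tᶜ := apply_mem_of_GT hu₂ (by simpa using hbp)
      have h4 : u₂ (b p) ∉ T := by simpa using h3
      rw [mem_GT.1 hu₁ _ h4]; exact h4
    have h6 : z (v₁ (v₂ p')) ∈ T := by
      rw [hz2, mem_GT.1 hu₂ _ (by simpa using hbp')]
      exact apply_mem_of_GT hu₁ hbp'
    have hlt' : z (v₁ (v₂ p')) < z (v₁ (v₂ p)) := by
      by_contra hcon
      exact h5 (hT _ h6 _ (not_lt.1 hcon))
    have h := hg z _ _ (mem_univ _) (mem_univ _) hlt' (by simpa using hlt)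
    refine h.trans (le_of_eq ?_)
    congr 1
    rw [← mul_swap_eq z, hz]
    have e : v₁ * v₂ * swap p' p = swap (v₁ (v₂ p')) (v₁ (v₂ p)) * (v₁ * v₂) :=
      mul_swap_eq (v₁ * v₂) p' p
    have e2 : (v₁ * v₂ * b⁻¹)⁻¹ * swap (v₁ (v₂ p')) (v₁ (v₂ p)) =
        (v₁ * v₂ * (b * swap p p')⁻¹)⁻¹ := by
      rw [mul_inv_rev b, swap_inv, swap_comm p p', ← mul_assoc (v₁ * v₂), e]
      simp [mul_assoc]
    rw [mul_assoc (u₁ * u₂), e2]
  · unfold mm
    have hne : p ≠ p' := fun h => hp' (h ▸ hp)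
    have e : univ.filter (fun k : Fin n => k ∈ Q ∧ b k ∉ T) =
        insert p (univ.filter (fun k : Fin n => k ∈ Q ∧ (b * swap p p') k ∉ T)) := by
      ext k
      simp only [mem_insert, mem_filter, mem_univ, true_and]
      rw [Perm.mul_apply]
      by_cases hk : k = p
      · subst hk
        simp [hp, hbp]
      · by_cases hk' : k = p'
        · subst hk'
          simp [hp', hk]
        · rw [swap_apply_of_ne_of_ne hk hk']
          simp [hk]
    rw [e, Finset.card_insert_of_notMem]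
    rw [mem_filter, Perm.mul_apply, swap_apply_left]
    tauto

theorem D_anti {Q T : Finset (Fin n)} (hQ : ∀ v ∈ Q, ∀ v' ≤ v, v' ∈ Q)
    (hT : ∀ v ∈ T, ∀ v' ≤ v, v' ∈ T) {g : Perm (Fin n) → ℝ}
    (hg : MonoOn univ g) (a : Perm (Fin n)) : ∀ (d : ℕ) (b : Perm (Fin n)),
    mm Q T b = mm Q T a + d → D Q T g b ≤ D Q T g a := by
  intro d
  induction d with
  | zero =>
    intro b hb
    exact le_of_eq (D_eq_of_mm_eq g (by simpa using hb))
  | succ d ih =>
    intro b hb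
    obtain ⟨a1, a2, a3⟩ := card_types Q T a
    obtain ⟨b1, b2, b3⟩ := card_types Q T b
    have h1 : 0 < (univ.filter (fun k : Fin n => k ∈ Q ∧ b k ∉ T)).card := by
      change 0 < mm Q T b
      omega
    have h2 : 0 < (univ.filter (fun k : Fin n => k ∉ Q ∧ b k ∈ T)).card := by
      omega
    obtain ⟨p, hp⟩ := Finset.card_pos.1 h1
    obtain ⟨p', hp'⟩ := Finset.card_pos.1 h2
    simp only [mem_filter, mem_univ, true_and] at hp hp'
    obtain ⟨s1, s2⟩ := D_step hQ hT hg b hp.1 hp'.1 hp.2 hp'.2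
    exact s1.trans (ih _ (by omega))

theorem mm_mul {Q T : Finset (Fin n)} (a u v : Perm (Fin n)) (hu : ∀ x, u x ∈ T ↔ x ∈ T)
    (hv : ∀ x, v x ∈ Q ↔ x ∈ Q) : mm Q T (u * a * v) = mm Q T a := by
  unfold mm
  refine Finset.card_bij (fun k _ => v k) ?_ ?_ ?_
  · intro k hk
    simp only [mem_filter, mem_univ, true_and] at hk ⊢
    rw [Perm.mul_apply, Perm.mul_apply, hu] at hk
    rw [hv]
    exact hk
  · intro k _ k' _ h
    exact v.injective h
  · intro k hk
    refine ⟨v⁻¹ k, ?_, by simp⟩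
    simp only [mem_filter, mem_univ, true_and] at hk ⊢
    rw [Perm.mul_apply, Perm.mul_apply, hu]
    have : v (v⁻¹ k) = k := by simp
    rw [this, ← hv (v⁻¹ k), this]
    exact hk

theorem GT_preserves {T : Finset (Fin n)} {u : Perm (Fin n)} (hu : u ∈ GT T) (v : Fin n) :
    u v ∈ T ↔ v ∈ T := by
  constructor
  · intro h
    by_contra hv
    rw [mem_GT.1 hu v hv] at h
    exact hv h
  · exact apply_mem_of_GT hu

theorem GTc_preserves {T : Finset (Fin n)} {u : Perm (Fin n)} (hu : u ∈ GT Tᶜ) (v : Fin n) :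
    u v ∈ T ↔ v ∈ T := by
  have := GT_preserves hu v
  simp only [mem_compl] at this
  tauto

/-- Averaging over double cosets does not change integrals against weights depending on `mm`. -/
theorem sum_D (Q T : Finset (Fin n)) (F : ℕ → ℝ) (g : Perm (Fin n) → ℝ) :
    ∑ a, F (mm Q T a) * D Q T g a = N Q T * ∑ a, F (mm Q T a) * g a := by
  have h1 : ∀ v₂ ∈ GT Qᶜ, ∀ v₁ ∈ GT Q, ∀ u₂ ∈ GT Tᶜ, ∀ u₁ ∈ GT T,
      ∑ a, F (mm Q T a) * g (u₁ * u₂ * (v₁ * v₂ * a⁻¹)⁻¹) = ∑ a, F (mm Q T a) * g a := by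
    intro v₂ hv₂ v₁ hv₁ u₂ hu₂ u₁ hu₁
    have hu : ∀ x, (u₁ * u₂) x ∈ T ↔ x ∈ T := by
      intro x
      rw [Perm.mul_apply, GT_preserves hu₁, GTc_preserves hu₂]
    have hv : ∀ x, (v₁ * v₂)⁻¹ x ∈ Q ↔ x ∈ Q := by
      intro x
      have h3 : ∀ x, (v₁ * v₂) x ∈ Q ↔ x ∈ Q := by
        intro x
        rw [Perm.mul_apply, GT_preserves hv₁, GTc_preserves hv₂]
      have := h3 ((v₁ * v₂)⁻¹ x)
      rw [← this]
      simp
    refine Fintype.sum_bijective
      (fun a => (u₁ * u₂) * a * (v₁ * v₂)⁻¹) ?_ _ _ ?_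
    · constructor
      · intro a a' h
        simpa using h
      · intro a
        exact ⟨(u₁ * u₂)⁻¹ * a * (v₁ * v₂), by simp [mul_assoc]⟩
    · intro a
      rw [mm_mul a _ _ hu hv]
      congr 2
  unfold D V
  simp only [Finset.mul_sum]
  rw [Finset.sum_comm]
  have h2 : ∀ v₂ ∈ GT Qᶜ, ∑ a, ∑ v₁ ∈ GT Q, ∑ u₂ ∈ GT Tᶜ, ∑ u₁ ∈ GT T,
      F (mm Q T a) * g (u₁ * u₂ * (v₁ * v₂ * a⁻¹)⁻¹) =
      ((GT Q).card : ℝ) * (((GT Tᶜ).card : ℝ) * (((GT T).card : ℝ) *
        ∑ a, F (mm Q T a) * g a)) := by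
    intro v₂ hv₂
    rw [Finset.sum_comm]
    rw [Finset.sum_congr rfl (g := fun _ => (((GT Tᶜ).card : ℝ) * (((GT T).card : ℝ) *
        ∑ a, F (mm Q T a) * g a)))]
    · rw [Finset.sum_const, nsmul_eq_mul]
    · intro v₁ hv₁
      rw [Finset.sum_comm]
      rw [Finset.sum_congr rfl (g := fun _ => (((GT T).card : ℝ) *
        ∑ a, F (mm Q T a) * g a))]
      · rw [Finset.sum_const, nsmul_eq_mul]
      · intro u₂ hu₂
        rw [Finset.sum_comm]
        rw [Finset.sum_congr rfl (g := fun _ => (∑ a, F (mm Q T a) * g a))]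
        · rw [Finset.sum_const, nsmul_eq_mul]
        · intro u₁ hu₁
          exact h1 v₂ hv₂ v₁ hv₁ u₂ hu₂ u₁ hu₁
  rw [Finset.sum_congr rfl h2, Finset.sum_const, nsmul_eq_mul, ← Finset.mul_sum]
  unfold N
  ring

/-- Weighted Chebyshev inequality. -/
theorem weighted_chebyshev {ι : Type*} [Fintype ι] (F h₁ h₂ : ι → ℝ) (hF : ∀ a, 0 ≤ F a)
    (h : ∀ a b, 0 ≤ (h₁ a - h₁ b) * (h₂ a - h₂ b)) :
    (∑ a, F a * h₁ a) * (∑ a, F a * h₂ a) ≤ (∑ a, F a) * ∑ a, F a * (h₁ a * h₂ a) := by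
  have h0 : 0 ≤ ∑ a, ∑ b, F a * F b * ((h₁ a - h₁ b) * (h₂ a - h₂ b)) :=
    Finset.sum_nonneg fun a _ => Finset.sum_nonneg fun b _ =>
      mul_nonneg (mul_nonneg (hF a) (hF b)) (h a b)
  have e : ∑ a, ∑ b, F a * F b * ((h₁ a - h₁ b) * (h₂ a - h₂ b)) =
      2 * ((∑ a, F a) * ∑ a, F a * (h₁ a * h₂ a)) -
        2 * ((∑ a, F a * h₁ a) * (∑ a, F a * h₂ a)) := by
    have e1 : ∀ a b, F a * F b * ((h₁ a - h₁ b) * (h₂ a - h₂ b)) =
        (F a * (h₁ a * h₂ a)) * F b + F a * (F b * (h₁ b * h₂ b))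
          - (F a * h₁ a) * (F b * h₂ b) - (F a * h₂ a) * (F b * h₁ b) := by
      intro a b; ring
    simp only [e1, Finset.sum_add_distrib, Finset.sum_sub_distrib, ← Finset.mul_sum,
      ← Finset.sum_mul]
    ring
  rw [e] at h0
  linarith

/-- Positive association for all weights depending on `mm Q T` only. -/
theorem general {Q T : Finset (Fin n)} (hQ : ∀ v ∈ Q, ∀ v' ≤ v, v' ∈ Q)
    (hT : ∀ v ∈ T, ∀ v' ≤ v, v' ∈ T) (F : ℕ → ℝ) (hF : ∀ k, 0 ≤ F k)
    {g₁ g₂ : Perm (Fin n) → ℝ} (h₁ : MonoOn univ g₁) (h₂ : MonoOn univ g₂) :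
    (∑ a, F (mm Q T a) * g₁ a) * (∑ a, F (mm Q T a) * g₂ a) ≤
      (∑ a, F (mm Q T a)) * ∑ a, F (mm Q T a) * (g₁ a * g₂ a) := by
  have hN := N_pos Q T
  have anti : ∀ g : Perm (Fin n) → ℝ, MonoOn univ g → ∀ a b,
      mm Q T a ≤ mm Q T b → D Q T g b ≤ D Q T g a := by
    intro g hg a b hab
    exact D_anti hQ hT hg a (mm Q T b - mm Q T a) b (by omega)
  have hch := weighted_chebyshev (fun a => F (mm Q T a)) (D Q T g₁) (D Q T g₂)
    (fun a => hF _) (by
      intro a b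
      rcases le_total (mm Q T a) (mm Q T b) with hab | hab
      · exact mul_nonneg (sub_nonneg.2 (anti g₁ h₁ a b hab)) (sub_nonneg.2 (anti g₂ h₂ a b hab))
      · exact mul_nonneg_of_nonpos_of_nonpos (sub_nonpos.2 (anti g₁ h₁ b a hab))
          (sub_nonpos.2 (anti g₂ h₂ b a hab)))
  rw [sum_D, sum_D] at hch
  have h3 : ∑ a, F (mm Q T a) * (D Q T g₁ a * D Q T g₂ a) ≤
      N Q T * (N Q T * ∑ a, F (mm Q T a) * (g₁ a * g₂ a)) := by
    rw [← sum_D Q T F (fun a => g₁ a * g₂ a), Finset.mul_sum]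
    refine Finset.sum_le_sum fun a _ => ?_
    calc F (mm Q T a) * (D Q T g₁ a * D Q T g₂ a)
        ≤ F (mm Q T a) * (N Q T * D Q T (fun a => g₁ a * g₂ a) a) :=
          mul_le_mul_of_nonneg_left (D_assoc hT h₁ h₂ a) (hF _)
      _ = _ := by ring
  have h4 : (∑ a, F (mm Q T a)) * ∑ a, F (mm Q T a) * (D Q T g₁ a * D Q T g₂ a) ≤
      (∑ a, F (mm Q T a)) * (N Q T * (N Q T * ∑ a, F (mm Q T a) * (g₁ a * g₂ a))) :=
    mul_le_mul_of_nonneg_left h3 (Finset.sum_nonneg fun a _ => hF _)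
  have h5 := hch.trans h4
  have hNN : 0 < N Q T * N Q T := mul_pos hN hN
  have h6 : (N Q T * N Q T) * ((∑ a, F (mm Q T a) * g₁ a) * (∑ a, F (mm Q T a) * g₂ a)) ≤
      (N Q T * N Q T) * ((∑ a, F (mm Q T a)) * ∑ a, F (mm Q T a) * (g₁ a * g₂ a)) := by
    calc _ = (N Q T * ∑ a, F (mm Q T a) * g₁ a) * (N Q T * ∑ a, F (mm Q T a) * g₂ a) := by ring
      _ ≤ _ := h5
      _ = _ := by ring
  exact le_of_mul_le_mul_left h6 hNN

/-- **Main result.** For every `n ≥ 1` and every `q > 0` the middle-gap measure `μ_q` on the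
permutations of `n` points is positively associated for the strong order. -/
theorem result : ∀ n : ℕ, 1 ≤ n → ∀ q : ℝ, 0 < q →
    PositivelyAssociated (fun A : Finset (Perm (Fin n)) => mu q A) := by
  intro n _ q hq A B hA hB
  set T : Finset (Fin n) := univ.filter (fun k : Fin n => 2 * ((k : ℕ) + 1) ≤ n) with hTdef
  have hT : ∀ v ∈ T, ∀ v' ≤ v, v' ∈ T := by
    intro v hv v' hv'
    simp only [hTdef, mem_filter, mem_univ, true_and] at hv ⊢
    have : (v' : ℕ) ≤ v := hv'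
    omega
  have hm : ∀ a : Perm (Fin n), m a = mm T T a := by
    intro a
    unfold m mm
    congr 1
    ext k
    simp [hTdef]
  have mono : ∀ C : Finset (Perm (Fin n)), IsStrongUpSet C →
      MonoOn univ (fun a => if a ∈ C then (1 : ℝ) else 0) := by
    intro C hC a i j _ _ hij hinv
    by_cases ha : a ∈ C
    · have := hC a ha i j hij hinv
      simp [ha, this]
    · simp only [ha, if_false]
      split_ifs <;> norm_num
  have key := general hT hT (fun k => q ^ k) (fun k => (pow_pos hq k).le) (mono A hA) (mono B hB)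
  have sumC : ∀ C : Finset (Perm (Fin n)),
      ∑ a, q ^ (mm T T a) * (if a ∈ C then (1 : ℝ) else 0) = ∑ a ∈ C, q ^ m a := by
    intro C
    simp [hm]
  have sumAB : ∑ a, q ^ (mm T T a) * ((if a ∈ A then (1 : ℝ) else 0) *
      (if a ∈ B then (1 : ℝ) else 0)) = ∑ a ∈ A ∩ B, q ^ m a := by
    rw [← sumC (A ∩ B)]
    refine Finset.sum_congr rfl fun a _ => ?_
    by_cases h1 : a ∈ A <;> by_cases h2 : a ∈ B <;> simp [h1, h2]
  rw [sumC, sumC, sumAB] at key
  have hZ : 0 < ∑ b : Perm (Fin n), q ^ m b :=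
    Finset.sum_pos (fun b _ => pow_pos hq _) Finset.univ_nonempty
  have hZ' : ∑ b : Perm (Fin n), q ^ (mm T T b) = ∑ b : Perm (Fin n), q ^ m b := by
    simp [hm]
  rw [hZ'] at key
  show mu q A * mu q B ≤ mu q (A ∩ B)
  unfold mu
  rw [div_mul_div_comm, div_le_div_iff₀ (mul_pos hZ hZ) hZ]
  nlinarith [key, hZ]

end Pool.Agent.Results.MP_8cb698_co.MiddleGap
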